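import Mathlib

/-!
# Homeomorphisms conjugate to their inverses have stable flow length zero (MP_e54d61_gt, Q2)

Q2 asks for `f ∈ Homeo₀(Σ_g)` which is conjugate in `Homeo₀(Σ_g)` to `f⁻¹` and has positive stable
flow length. There is none. The flow length is a conjugation invariant norm: conjugates of flows are
flows. If `h f h⁻¹ = f⁻¹`, then `f ^ (2 m) = (f ^ m h f ^ (-m)) h⁻¹` has flow length at most twice the
flow length of `h`, for all `m`; so the flow lengths of the powers of `f` are bounded.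

The group `Homeo₀(Σ_g)` enters through the fact recorded in the problem file that it is generated by
the time-one maps of flows: the theorem is about the group `flowGroup X` generated by the time-one
maps of flows of an arbitrary topological space `X`. For `X = Σ_g` (every `g`) this group is
`Homeo₀(Σ_g)`.
-/

set_option autoImplicit false

namespace Pool.Agent.Results.MP_e54d61_gt.ConjugateToInverse

open Filter Topology

variable {X : Type*} [TopologicalSpace X]

/-- The time-one map of a flow (a continuous one-parameter group of homeomorphisms). -/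
def timeOne (φ : Flow ℝ X) : X ≃ₜ X := φ.toHomeomorph 1

variable (X) in
/-- The set `𝒮` of the time-one maps of all flows of `X`. -/
def timeOneMaps : Set (X ≃ₜ X) := Set.range (timeOne (X := X))

variable (X) in
/-- The group generated by the time-one maps of flows; for a closed surface this is the identity
component `Homeo₀` of the homeomorphism group. -/
def flowGroup : Subgroup (X ≃ₜ X) := Subgroup.closure (timeOneMaps X)

/-- The flow length: the least number of time-one maps of flows whose product is `h`. -/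
noncomputable def flowLength (h : X ≃ₜ X) : ℕ :=
  sInf {n | ∃ l : List (X ≃ₜ X), l.length = n ∧ (∀ s ∈ l, s ∈ timeOneMaps X) ∧ l.prod = h}

/-- The flow conjugated by a homeomorphism. -/
def conjFlow (g : X ≃ₜ X) (φ : Flow ℝ X) : Flow ℝ X where
  toFun t x := g (φ t (g.symm x))
  cont' := by
    have h : Continuous fun p : ℝ × X => φ p.1 (g.symm p.2) :=
      φ.continuous continuous_fst (g.symm.continuous.comp continuous_snd)
    exact g.continuous.comp h
  map_add' s t x := by
    rw [Homeomorph.symm_apply_apply, φ.map_add]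
  map_zero' x := by
    rw [φ.map_zero_apply, Homeomorph.apply_symm_apply]

/-- The flow run backwards. -/
def revFlow (φ : Flow ℝ X) : Flow ℝ X where
  toFun t x := φ (-t) x
  cont' := by
    have h : Continuous fun p : ℝ × X => φ (-p.1) p.2 :=
      φ.continuous (continuous_neg.comp continuous_fst) continuous_snd
    exact h
  map_add' s t x := by
    rw [neg_add, φ.map_add]
  map_zero' x := by
    rw [neg_zero, φ.map_zero_apply]

theorem conj_mem (g : X ≃ₜ X) {s : X ≃ₜ X} (hs : s ∈ timeOneMaps X) :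
    g * s * g⁻¹ ∈ timeOneMaps X := by
  obtain ⟨φ, rfl⟩ := hs
  refine ⟨conjFlow g φ, ?_⟩
  ext x
  rfl

theorem inv_mem {s : X ≃ₜ X} (hs : s ∈ timeOneMaps X) : s⁻¹ ∈ timeOneMaps X := by
  obtain ⟨φ, rfl⟩ := hs
  refine ⟨revFlow φ, ?_⟩
  rw [eq_inv_iff_mul_eq_one]
  ext x
  change φ (-1) (φ 1 x) = x
  rw [← φ.map_add, neg_add_cancel, φ.map_zero_apply]

/-- The set of the lengths of the representations of `h` as a product of time-one maps. -/
def lens (h : X ≃ₜ X) : Set ℕ :=
  {n | ∃ l : List (X ≃ₜ X), l.length = n ∧ (∀ s ∈ l, s ∈ timeOneMaps X) ∧ l.prod = h}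

theorem lens_mul {a b : X ≃ₜ X} {m n : ℕ} (ha : m ∈ lens a) (hb : n ∈ lens b) :
    m + n ∈ lens (a * b) := by
  obtain ⟨l, h1, h2, h3⟩ := ha
  obtain ⟨l', h1', h2', h3'⟩ := hb
  refine ⟨l ++ l', by simp [h1, h1'], ?_, by simp [h3, h3']⟩
  intro s hs
  rcases List.mem_append.1 hs with hs | hs
  · exact h2 s hs
  · exact h2' s hs

theorem lens_conj (g : X ≃ₜ X) {a : X ≃ₜ X} {m : ℕ} (ha : m ∈ lens a) :
    m ∈ lens (g * a * g⁻¹) := by
  obtain ⟨l, h1, h2, h3⟩ := ha
  refine ⟨l.map (MulAut.conj g), by simp [h1], ?_, ?_⟩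
  · intro s hs
    obtain ⟨t, ht, rfl⟩ := List.mem_map.1 hs
    exact conj_mem g (h2 t ht)
  · rw [List.prod_hom, h3, MulAut.conj_apply]

theorem lens_inv {a : X ≃ₜ X} {m : ℕ} (ha : m ∈ lens a) : m ∈ lens a⁻¹ := by
  obtain ⟨l, h1, h2, h3⟩ := ha
  refine ⟨(l.map (fun x => x⁻¹)).reverse, by simp [h1], ?_, ?_⟩
  · intro s hs
    rw [List.mem_reverse, List.mem_map] at hs
    obtain ⟨t, ht, rfl⟩ := hs
    exact inv_mem (h2 t ht)
  · rw [← List.prod_inv_reverse, h3]

theorem lens_nonempty {a : X ≃ₜ X} (ha : a ∈ flowGroup X) : (lens a).Nonempty := by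
  induction ha using Subgroup.closure_induction with
  | mem s hs => exact ⟨1, [s], rfl, by simpa using hs, by simp⟩
  | one => exact ⟨0, [], rfl, by simp, rfl⟩
  | mul x y _ _ hx hy =>
    obtain ⟨m, hm⟩ := hx
    obtain ⟨n, hn⟩ := hy
    exact ⟨m + n, lens_mul hm hn⟩
  | inv x _ hx =>
    obtain ⟨m, hm⟩ := hx
    exact ⟨m, lens_inv hm⟩

theorem flowLength_mem {a : X ≃ₜ X} (ha : a ∈ flowGroup X) : flowLength a ∈ lens a :=
  Nat.sInf_mem (lens_nonempty ha)

theorem flowLength_le {a : X ≃ₜ X} {m : ℕ} (ha : m ∈ lens a) : flowLength a ≤ m :=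
  Nat.sInf_le ha

/-- **Answer to Q2 (no).** Let `f` be an element of `flowGroup X` (`= Homeo₀(X)` for a closed
surface `X`) which is conjugate in this group to `f⁻¹`. Then the flow lengths of the powers of `f`
are bounded, and the stable flow length `lim fl(f ^ n) / n` of `f` is zero. -/
theorem result (X : Type*) [TopologicalSpace X] (f : X ≃ₜ X) (hf : f ∈ flowGroup X)
    (hconj : ∃ h ∈ flowGroup X, h * f * h⁻¹ = f⁻¹) :
    (∃ C : ℕ, ∀ n : ℕ, flowLength (f ^ n) ≤ C) ∧
      Tendsto (fun n : ℕ => (flowLength (f ^ n) : ℝ) / n) atTop (𝓝 0) := by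
  obtain ⟨h, hh, hc⟩ := hconj
  have key : ∀ m : ℕ, f ^ (2 * m) = (f ^ m * h * (f ^ m)⁻¹) * h⁻¹ := by
    intro m
    have h1 : h * (f ^ m)⁻¹ * h⁻¹ = f ^ m := by
      have h2 : h * f ^ m * h⁻¹ = (f ^ m)⁻¹ := by
        rw [← conj_pow, hc, inv_pow]
      calc h * (f ^ m)⁻¹ * h⁻¹ = (h * f ^ m * h⁻¹)⁻¹ := by group
        _ = f ^ m := by rw [h2, inv_inv]
    calc f ^ (2 * m) = f ^ m * f ^ m := by rw [two_mul, pow_add]
      _ = f ^ m * (h * (f ^ m)⁻¹ * h⁻¹) := by rw [h1]
      _ = (f ^ m * h * (f ^ m)⁻¹) * h⁻¹ := by group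
  have heven : ∀ m : ℕ, 2 * flowLength h ∈ lens (f ^ (2 * m)) := by
    intro m
    rw [key, two_mul]
    exact lens_mul (lens_conj _ (flowLength_mem hh)) (lens_inv (flowLength_mem hh))
  have hbd : ∀ n : ℕ, flowLength (f ^ n) ≤ 2 * flowLength h + flowLength f := by
    intro n
    rcases Nat.even_or_odd' n with ⟨m, rfl | rfl⟩
    · exact (flowLength_le (heven m)).trans (Nat.le_add_right _ _)
    · rw [pow_succ]
      exact flowLength_le (lens_mul (heven m) (flowLength_mem hf))
  refine ⟨⟨_, hbd⟩, ?_⟩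
  refine squeeze_zero (fun n => by positivity) (g := fun n : ℕ =>
    ((2 * flowLength h + flowLength f : ℕ) : ℝ) / n) ?_ ?_
  · intro n
    have : (flowLength (f ^ n) : ℝ) ≤ ((2 * flowLength h + flowLength f : ℕ) : ℝ) := by
      exact_mod_cast hbd n
    gcongr
  · exact tendsto_const_div_atTop_nhds_zero_nat _

end Pool.Agent.Results.MP_e54d61_gt.ConjugateToInverse
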